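import Pool.Agent.W525.CB.Stm

/-!
# Project CB, part LAT: the lattice of differentials at a point of `X`
-/

open AlgebraicGeometry CategoryTheory Order

namespace Pool.Agent.W701.CB.LAT

open Pool.Agent.H187R3 Pool.Agent.W525.CB

theorem D_const {k L : Type} [Field k] [IsAlgClosed k] [Field L] [Algebra k L] {p : ℕ}
    (hp : 0 < p) [CharP L p] (c : k) : KaehlerDifferential.D ℤ L (algebraMap k L c) = 0 := by
  obtain ⟨b, hb⟩ := IsAlgClosed.exists_pow_nat_eq c hp
  rw [← hb, map_pow, Derivation.leibniz_pow]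
  have h : ((p : ℕ) : L) = 0 := CharP.cast_eq_zero L p
  rw [← Nat.cast_smul_eq_nsmul L, h, zero_smul]

theorem main : S_REL → S_DIF → S_LAT := by
  intro hREL hDIF n k _ _ _ _ L _ _ x y hn hD σ R _ _ hA hfrac hw2
  have hchL : CharP L (n + 2) := charP_of_injective_algebraMap (algebraMap k L).injective (n + 2)
  obtain ⟨hr1, -, -, -⟩ := hREL n L x y hn hD σ
  obtain ⟨-, hd2, hd3⟩ := hDIF n L x y hn hD σ
  set N : Submodule R (Ω[L⁄ℤ]) := Submodule.span R (Set.range (cfam x y σ)) with hN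
  set A := Algebra.adjoin k (Set.range (ss x σ) ∪ Set.range (tt x y σ)) with hAdef
  have hss : ∀ i, ss x σ i ∈ A := fun i => Algebra.subset_adjoin (Or.inl ⟨i, rfl⟩)
  have htt : ∀ i, tt x y σ i ∈ A := fun i => Algebra.subset_adjoin (Or.inr ⟨i, rfl⟩)
  have hww : ∀ i, ww x y σ i ∈ A := fun i =>
    A.sub_mem (A.pow_mem (hss i) 2) (A.mul_mem (A.pow_mem (hss 1) 2) (htt i))
  have hRact : ∀ a ∈ (algebraMap R L).range, ∀ v ∈ N, a • v ∈ N := by
    rintro _ ⟨r, rfl⟩ v hv
    rw [algebraMap_smul]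
    exact N.smul_mem r hv
  have hAact : ∀ a ∈ A, ∀ v ∈ N, a • v ∈ N := fun a ha => hRact a (hA a ha)
  have hc1 : ∀ m : Fin n, KaehlerDifferential.D ℤ L (ss x σ m.succ.succ.succ) ∈ N :=
    fun m => Submodule.subset_span ⟨Sum.inr m, rfl⟩
  have hct : ∀ m : Fin (n + 1), KaehlerDifferential.D ℤ L (tt x y σ m.succ.succ) ∈ N :=
    fun m => Submodule.subset_span ⟨Sum.inl m, rfl⟩
  have hw2ne : ww x y σ 2 ≠ 0 := by
    rw [hr1]
    refine div_ne_zero (hD.nu _ _ ?_) (hD.nu _ _ ?_)
    · intro h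
      have := σ.injective h
      have h2 : (1 : ℕ) = 2 := congrArg Fin.val this
      omega
    · intro h
      have := σ.injective h
      have h2 := congrArg Fin.val this
      simp at h2
  have h2eq : ((0 : Fin (n + 1)).succ.succ : Fin (n + 3)) = 2 := rfl
  have hc2 : KaehlerDifferential.D ℤ L (ss x σ 2) ∈ N := by
    rw [Fin.sum_univ_succ, h2eq] at hd3
    have h1 : KaehlerDifferential.D ℤ L (ss x σ 2) =
        -((ww x y σ 2)⁻¹ ^ (n + 2) • ∑ m : Fin n, ww x y σ m.succ.succ.succ ^ (n + 2) •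
          KaehlerDifferential.D ℤ L (ss x σ m.succ.succ.succ)) := by
      have h2 := eq_neg_of_add_eq_zero_left hd3
      calc KaehlerDifferential.D ℤ L (ss x σ 2)
          = (ww x y σ 2)⁻¹ ^ (n + 2) • (ww x y σ 2 ^ (n + 2) •
              KaehlerDifferential.D ℤ L (ss x σ 2)) := by
            rw [smul_smul, ← mul_pow, inv_mul_cancel₀ hw2ne, one_pow, one_smul]
        _ = _ := by rw [h2, smul_neg]
    rw [h1]
    refine N.neg_mem (hRact _ (Subring.pow_mem _ hw2 _) _ (N.sum_mem fun m _ => ?_))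
    exact hAact _ (A.pow_mem (hww _) _) _ (hc1 m)
  have hc3 : ∀ l : Fin (n + 1), KaehlerDifferential.D ℤ L (ss x σ l.succ.succ) ∈ N := by
    intro l
    refine Fin.cases ?_ ?_ l
    · rw [h2eq]; exact hc2
    · exact hc1
  have hc4 : KaehlerDifferential.D ℤ L (ss x σ 1) ∈ N := by
    rw [hd2]
    refine N.neg_mem (N.sum_mem fun m _ => ?_)
    exact hAact _ (A.pow_mem (htt _) _) _ (hc3 m)
  have hs0 : ss x σ 0 = 1 := div_self (hD.nx _)
  have ht0 : tt x y σ 0 = 0 := by
    unfold tt uu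
    rw [sub_self, zero_div]
  have ht1 : tt x y σ 1 = 1 := by
    refine div_self (hD.nu _ _ ?_)
    intro h
    have := σ.injective h
    have h2 := congrArg Fin.val this
    simp at h2
  have hDs : ∀ i, KaehlerDifferential.D ℤ L (ss x σ i) ∈ N := by
    intro i
    refine Fin.cases ?_ (fun j => Fin.cases ?_ (fun l => ?_) j) i
    · rw [hs0, Derivation.map_one_eq_zero]; exact N.zero_mem
    · exact hc4
    · exact hc3 l
  have hDt : ∀ i, KaehlerDifferential.D ℤ L (tt x y σ i) ∈ N := by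
    intro i
    refine Fin.cases ?_ (fun j => Fin.cases ?_ (fun l => ?_) j) i
    · rw [ht0, map_zero]; exact N.zero_mem
    · have h1 : ((0 : Fin (n + 2)).succ : Fin (n + 3)) = 1 := rfl
      rw [h1, ht1, Derivation.map_one_eq_zero]; exact N.zero_mem
    · exact hct l
  have hDA : ∀ a ∈ A, KaehlerDifferential.D ℤ L a ∈ N := by
    intro a ha
    induction ha using Algebra.adjoin_induction with
    | mem a ha =>
      rcases ha with ⟨i, rfl⟩ | ⟨i, rfl⟩
      · exact hDs i
      · exact hDt i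
    | algebraMap c =>
      rw [D_const (p := n + 2) (by omega)]
      exact N.zero_mem
    | add a b _ _ h1 h2 =>
      rw [map_add]
      exact N.add_mem h1 h2
    | mul a b ha hb h1 h2 =>
      rw [Derivation.leibniz]
      exact N.add_mem (hAact a ha _ h2) (hAact b hb _ h1)
  apply le_antisymm
  · rw [hN, Submodule.span_le]
    rintro _ ⟨i, rfl⟩
    have key : ∀ a ∈ A, KaehlerDifferential.D ℤ L a ∈ diffLattice R L := by
      intro a ha
      obtain ⟨r, hr⟩ := hA a ha
      rw [← hr]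
      exact Submodule.subset_span ⟨r, rfl⟩
    rcases i with i | i
    · exact key _ (htt _)
    · exact key _ (hss _)
  · unfold diffLattice
    rw [Submodule.span_le]
    rintro _ ⟨r, rfl⟩
    obtain ⟨b, s, hb, hs, hs0, hsi, hrbs⟩ := hfrac r
    show KaehlerDifferential.D ℤ L (algebraMap R L r) ∈ N
    rw [hrbs, Derivation.leibniz_div]
    have h1 : s⁻¹ ^ 2 ∈ (algebraMap R L).range := Subring.pow_mem _ hsi _
    exact hRact _ h1 _ (N.sub_mem (hAact _ hs _ (hDA _ hb)) (hAact _ hb _ (hDA _ hs)))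

end Pool.Agent.W701.CB.LAT
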